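import Pool.Agent.N481.PC.Lim
import Pool.Agent.Results.MP_fe58d8_pr.ExactOccupation

/-!
# Holomorphic functions off the exploration path: removability and the Cauchy transform of the natural time

Critical bond percolation on `δ ℤ²` in a rectangle `D = (-A, B) × (0, H)`, with the counterclockwise boundary arc from
`a = t + i H` to `b = 0` wired and the other one dual-wired. The exploration path is parametrised by its number of
steps: `Rect.curve` is the piecewise linear curve on `[0, 1]` run at constant speed, and `Rect.time` is the number of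
steps times `δ ^ (7/4)`; `Rect.law` is the law of (curve, time). Weak limits exist along a subsequence of every sequence
of meshes. Let `p = (f, T)` be distributed as a weak limit, and let `ω (r) = r ^ (3/4) (log log (1/r)) ^ (1/8)`.
Almost surely:

(1) for every open set `U`, every function on `U` with modulus of continuity `o (ω)` (for instance Hölder continuous
with exponent `3/4`) that is holomorphic off the curve is holomorphic on `U`;

(2) for every closed set `S` of times: if `S` is null, then every function on an open set `U` with modulus `O (ω)` that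
is holomorphic off `f (S)` is holomorphic on `U`; if `S` is not null, then there is a function on `ℂ` with modulus
`O (ω)` which is holomorphic off `f (S)`, tends to `0` at infinity and is not entire. So `f (S)` is removable for the
class `O (ω)` iff `S` is null, and `o (ω)` in (1) cannot be replaced by `O (ω)`;

(3) for every arc `f ([a, b])` the Cauchy transform `w ↦ T ∫_a^b ds / (w - f s)` of its natural time has a modulus
of continuity of the exact order `r ^ (3/4) (log (1/r)) ^ (1/8)`, tends to `0` at infinity, and is analytic at the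
points off `f ([a, b])` and at no other point.

New here: the removability theorem (Dolzhenko's theorem with a gauge function), the estimates of Cauchy transforms from
above (multiscale) and from below (circle integrals). The input are the exact gauge of the Hausdorff measure and the
exact order of the maximal occupation from the starting library.

Definitions: `Pool.Agent.H984R4.NP.Model` (`Rect`, `pos`, `clamp`, `pl`, `X`, `Rect.dm`, `Rect.curve`, `Rect.time`,
`Rect.law`), `Pool.Agent.H984R4.NP.Defs` (`Dm`, `Dm.edges`, `Dm.wir`, `Dm.cfg`, `Dm.walk`, `Dm.len`) and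
`Pool.Agent.H984R3.Per.Defs` (states, `ae`, `mv`, `rt`, `nxt`, `orb`).
-/

set_option autoImplicit false

namespace Pool.Agent.Results.MP_216314_pr.CauchyTransform

open H984N MeasureTheory Filter Topology

/-- The modulus `r ^ (3/4) (log log (1/r)) ^ (1/8)`. -/
noncomputable def omega (r : ℝ) : ℝ := r ^ (3/4 : ℝ) * Real.log (Real.log (1 / r)) ^ (1/8 : ℝ)

/-- The modulus of continuity of `h` on `U` is `o (omega)`. -/
def Little (h : ℂ → ℂ) (U : Set ℂ) : Prop :=
  ∀ ε : ℝ, 0 < ε → ∃ r₀ : ℝ, 0 < r₀ ∧ ∀ z ∈ U, ∀ w ∈ U, dist z w < r₀ → ‖h z - h w‖ ≤ ε * omega (dist z w)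

/-- The modulus of continuity of `h` on `U` is `O (omega)`. -/
def Big (h : ℂ → ℂ) (U : Set ℂ) : Prop :=
  ∃ A r₀ : ℝ, 0 < r₀ ∧ ∀ z ∈ U, ∀ w ∈ U, dist z w < r₀ → ‖h z - h w‖ ≤ A * omega (dist z w)

/-- The Cauchy transform `T ∫_a^b ds / (w - f s)` of the natural time of the arc `f ([a, b])`, `p = (f, T)`. -/
noncomputable def field (p : X) (a b : unitInterval) (w : ℂ) : ℂ := (p.2 : ℂ) * ∫ s in Set.Icc a b, (w - p.1 s)⁻¹

theorem result (R : Rect) :
    (∀ δ : ℕ → ℝ, (∀ i, 0 < δ i) → Tendsto δ atTop (𝓝 0) →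
      ∃ φ : ℕ → ℕ, StrictMono φ ∧ ∃ μ : ProbabilityMeasure X,
        Tendsto (fun i => R.law (δ (φ i))) atTop (𝓝 μ)) ∧
    ∃ c C : ℝ, 0 < c ∧ 0 < C ∧
      ∀ δ : ℕ → ℝ, (∀ i, 0 < δ i) → Tendsto δ atTop (𝓝 0) → ∀ μ : ProbabilityMeasure X,
        Tendsto (fun i => R.law (δ i)) atTop (𝓝 μ) →
        ∀ᵐ p ∂(μ : Measure X), 0 < p.2 ∧
          (∀ (U : Set ℂ) (h : ℂ → ℂ), IsOpen U → Little h U →
            DifferentiableOn ℂ h (U \ Set.range p.1) → DifferentiableOn ℂ h U) ∧
          (∀ S : Set unitInterval, IsClosed S →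
            (volume S = 0 → ∀ (U : Set ℂ) (h : ℂ → ℂ), IsOpen U → Big h U →
              DifferentiableOn ℂ h (U \ p.1 '' S) → DifferentiableOn ℂ h U) ∧
            (volume S ≠ 0 → ∃ g : ℂ → ℂ, Big g Set.univ ∧ DifferentiableOn ℂ g (p.1 '' S)ᶜ ∧
              Tendsto g (cocompact ℂ) (𝓝 0) ∧ ¬ Differentiable ℂ g)) ∧
          ∀ a b : unitInterval, a < b →
            (∃ r₀ : ℝ, 0 < r₀ ∧ ∀ r : ℝ, 0 < r → r < r₀ →
              (∀ z w : ℂ, dist z w = r → ‖field p a b z - field p a b w‖ ≤
                C * (r ^ (3/4 : ℝ) * Real.log (1 / r) ^ (1/8 : ℝ))) ∧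
              ∃ z w : ℂ, dist z w = r ∧
                c * (r ^ (3/4 : ℝ) * Real.log (1 / r) ^ (1/8 : ℝ)) ≤ ‖field p a b z - field p a b w‖) ∧
            (∀ z : ℂ, AnalyticAt ℂ (field p a b) z ↔ z ∉ p.1 '' Set.Icc a b) ∧
            Tendsto (field p a b) (cocompact ℂ) (𝓝 0) := by
  obtain ⟨⟨-, -, -⟩, ⟨C', hC', hU⟩, -⟩ := Pool.Agent.Y985.ME.inputs
  obtain ⟨l, hl, hlow⟩ := Pool.Agent.Y995.HG.occ_lat hC' hU
  obtain ⟨A, w0, hA1, hw0, hlat⟩ := hlow R
  obtain ⟨cg, Cg, -, -, hG⟩ := Pool.Agent.Y995.HG.gauge_sets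
  obtain ⟨h2, c, C, hc, hC, hocc⟩ := Pool.Agent.Results.MP_fe58d8_pr.ExactOccupation.result R
  refine ⟨h2, c / 8, 93 * C, by positivity, by positivity, fun δ hδ hlim μ hμ => ?_⟩
  filter_upwards [(hG R).2 δ hδ hlim μ hμ, hocc δ hδ hlim μ hμ,
    Pool.Agent.Y995.HG.go_ae hl hA1 hw0 hlat hδ hlim hμ] with p g1 g2 g3
  refine ⟨g1.1, fun U h hUo hm hd => ?_, fun S hS => ⟨fun hS0 U h hUo hm hd => ?_, fun hS0 => ?_⟩,
    fun a b hab => Pool.Agent.N481.PC.fld_main g1.1 hc hC g2.2 a b hab⟩
  · exact Pool.Agent.N481.PC.rem_small (fun S => (g1.2 S).2) hUo hm hd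
  · obtain ⟨A, δ, hδ, h3⟩ := hm
    exact Pool.Agent.N481.PC.rem_null (fun S => (g1.2 S).2) hS hS0 hUo hδ h3 hd
  · obtain ⟨g, ⟨A, δ, hδ, h3⟩, h4⟩ := Pool.Agent.N481.PC.not_rem hl g1.1
      (Pool.Agent.Y995.HG.times_ae hl g1.1 g3) hS hS0
    exact ⟨g, ⟨A, δ, hδ, fun z _ w _ => h3 z w⟩, h4⟩

end Pool.Agent.Results.MP_216314_pr.CauchyTransform
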