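import Pool.Agent.Results.MP_6c8efb_pr.Displacement
import Pool.Agent.N956.EM.Vis
import Pool.Agent.N956.EM.Agr
import Pool.Agent.N956.EM.Arm
import Pool.Agent.N956.EM.Osc
import Pool.Agent.N956.EM.Mix
import Pool.Agent.N956.EM.Log
import Pool.Agent.N956.EM.Port
import Pool.Agent.N956.EM.Shr
import Pool.Agent.N956.EM.Shr1
import Pool.Agent.N956.EM.Rie
import Pool.Agent.N956.EM.Exi
import Pool.Agent.N956.EM.Sinv
import Pool.Agent.N956.EM.GA
import Pool.Agent.N956.EM.GB
import Pool.Agent.N956.EM.Dec2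
import Pool.Agent.N956.EM.Coal
import Pool.Agent.N956.EM.Dif
import Pool.Agent.N956.EM.All

/-!
# Empirical law of the critical interface for `q = 1` in the half-plane

Critical bond percolation on `ℤ × ℕ`, the edges `[x, x + 1]` of the real axis open for `x < 0` and
closed for `x ≥ 0`, and its interface, the exploration path `gam ω k`, which starts next to the
origin. `curve n ω` is the curve `n ^ (-4/7) γ(n t)`, `0 ≤ t ≤ 1`. The curves at the scales `m ≤ n`
decorrelate at the rate `(m / n) ^ c`; almost surely, for all bounded continuous functions of the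
curve at once, the logarithmic averages over the scales of one sample of the path and of the laws
have the same limits; these limits are scale invariant laws of curves; if the scaling limit exists
one sample of the path determines its law; and the events which depend only on the germ of the
curve at its starting point have probability `0` or `1` for every subsequential limit.

Definitions: `Pool.Agent.H984R4.HN.HPDefs` (`Conf`, `perc`, `opn`, `step`, `path`, `place`, `gam`,
`curve`), `Pool.Agent.H984R4.NP.Model` (`pl`), `Pool.Agent.H984R4.HN.FinalH` (`lawH`),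
`Pool.Agent.N956.EM.Stm` (`avg`, `shrink`).
-/

set_option autoImplicit false

namespace Pool.Agent.Results.MP_216314_pr.EmpiricalLaw

open H984P H984H MeasureTheory Filter Topology Pool.Agent.N956.EM

theorem result :
    -- decorrelation of the scales
    (∃ C c : ℝ, 0 < C ∧ 0 < c ∧ ∀ m n : ℕ, 1 ≤ m → m ≤ n →
      ∀ Φ Ψ : C(unitInterval, ℂ) → ℝ, Measurable Φ → (∀ f, |Φ f| ≤ 1) → (∀ f, |Ψ f| ≤ 1) →
        LipschitzWith 1 Ψ →
        |∫ ω, Φ (curve m ω) * Ψ (curve n ω) ∂perc -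
          (∫ ω, Φ (curve m ω) ∂perc) * ∫ ω, Ψ (curve n ω) ∂perc| ≤ C * ((m : ℝ) / n) ^ c) ∧
    -- the almost sure logarithmic law
    (∀ᵐ ω ∂perc, ∀ Φ : C(unitInterval, ℂ) → ℝ, Continuous Φ → (∃ M, ∀ f, |Φ f| ≤ M) →
      Tendsto (fun N : ℕ => (∑ n ∈ Finset.Icc 1 N, (n : ℝ)⁻¹ *
        (Φ (curve n ω) - ∫ ω', Φ (curve n ω') ∂perc)) / Real.log N) atTop (𝓝 0)) ∧
    -- the averaged laws have limits
    (∀ φ : ℕ → ℕ, Tendsto φ atTop atTop → ∃ ψ : ℕ → ℕ, StrictMono ψ ∧
      ∃ ν : ProbabilityMeasure C(unitInterval, ℂ), ∀ Φ : C(unitInterval, ℂ) → ℝ, Continuous Φ →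
        (∃ M, ∀ f, |Φ f| ≤ M) →
        Tendsto (fun i => avg Φ (φ (ψ i))) atTop
          (𝓝 (∫ f, Φ f ∂(ν : Measure C(unitInterval, ℂ))))) ∧
    -- these limits are scale invariant, and they are the limits for almost every sample
    (∀ φ : ℕ → ℕ, Tendsto φ atTop atTop → ∀ ν : ProbabilityMeasure C(unitInterval, ℂ),
      (∀ Φ : C(unitInterval, ℂ) → ℝ, Continuous Φ → (∃ M, ∀ f, |Φ f| ≤ M) →
        Tendsto (fun i => avg Φ (φ i)) atTop
          (𝓝 (∫ f, Φ f ∂(ν : Measure C(unitInterval, ℂ))))) →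
      (∀ t : unitInterval, 0 < t →
        (ν : Measure C(unitInterval, ℂ)).map (shrink t) = (ν : Measure C(unitInterval, ℂ))) ∧
      ∀ᵐ ω ∂perc, ∀ Φ : C(unitInterval, ℂ) → ℝ, Continuous Φ → (∃ M, ∀ f, |Φ f| ≤ M) →
        Tendsto (fun i => (∑ n ∈ Finset.Icc 1 (φ i), (n : ℝ)⁻¹ * Φ (curve n ω)) /
          Real.log (φ i)) atTop (𝓝 (∫ f, Φ f ∂(ν : Measure C(unitInterval, ℂ))))) ∧
    -- if the scaling limit exists, one sample determines its law
    (∀ ν : ProbabilityMeasure C(unitInterval, ℂ), Tendsto lawH atTop (𝓝 ν) →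
      (∀ t : unitInterval, 0 < t →
        (ν : Measure C(unitInterval, ℂ)).map (shrink t) = (ν : Measure C(unitInterval, ℂ))) ∧
      ∀ᵐ ω ∂perc, ∀ Φ : C(unitInterval, ℂ) → ℝ, Continuous Φ → (∃ M, ∀ f, |Φ f| ≤ M) →
        Tendsto (fun N : ℕ => (∑ n ∈ Finset.Icc 1 N, (n : ℝ)⁻¹ * Φ (curve n ω)) /
          Real.log N) atTop (𝓝 (∫ f, Φ f ∂(ν : Measure C(unitInterval, ℂ))))) ∧
    -- zero-one law at the starting point for every subsequential limit
    (∀ φ : ℕ → ℕ, Tendsto φ atTop atTop → ∀ μ : ProbabilityMeasure C(unitInterval, ℂ),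
      Tendsto (fun i => lawH (φ i)) atTop (𝓝 μ) →
      ∀ A : Set C(unitInterval, ℂ), MeasurableSet A →
        (∀ t : unitInterval, 0 < t → ∀ f g : C(unitInterval, ℂ), (∀ s ≤ t, f s = g s) →
          (f ∈ A ↔ g ∈ A)) →
        (μ : Measure C(unitInterval, ℂ)) A = 0 ∨ (μ : Measure C(unitInterval, ℂ)) A = 1) := by
  obtain ⟨⟨c, hc, hL⟩, ⟨C, hC, hU⟩, -⟩ :=
    Pool.Agent.Results.MP_6c8efb_pr.Displacement.inputs
  have hDec : S_DEC := dec flip_mp (mix flip_mp) (coal (agr vis)) dif arm (osc hc hC hL hU)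
    hc hC hL hU
  have hAll : S_ALL := em_all log_lln port hDec hc hC hL hU
  have hSinv : S_SINV := sinv (shr hc hC hL hU) (rie ces) ces
  refine ⟨?_, hAll, exi hc hC hL hU, ?_, ?_, gb (ga hDec (shr1 hc hC hL hU))⟩
  · obtain ⟨K, c1, hK, hc1, -, h⟩ := hDec
    exact ⟨K, c1, hK, hc1, h⟩
  · intro φ hφ ν hν
    exact ⟨hSinv φ hφ ν hν, em_along hAll hφ hν⟩
  · intro ν hν
    have h1 := em_ces ces hν
    exact ⟨hSinv id tendsto_id ν h1, em_along hAll tendsto_id h1⟩

end Pool.Agent.Results.MP_216314_pr.EmpiricalLaw
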