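import Pool.Agent.N892.MA.Rp
import Pool.Agent.N892.MA.Crv
import Pool.Agent.W424.KI.Fin
import Pool.Agent.Results.MP_6c8efb_pr.DoublePointsSmoothMaps

/-!
# The frontiers of the interface, all smooth functions and all smooth images of sets

Critical bond percolation on `δ ℤ²` (the random-cluster model with `q = 1`) in a rectangle
`D = (-A, B) × (0, H)`, with the counterclockwise boundary arc from `a = t + i H` to `b = 0` wired
and the other one dual-wired. `Rect.law` is the law of the exploration path (interface) from `a` to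
`b`, as a curve with constant speed, and of its natural time. Weak limits exist along a subsequence
of every sequence of meshes. `boundaries f` is the union of the boundaries of all the components of
the complement of the trace of `f`; `doublePoints f` is the set of the points which `f` visits at
least twice.

For every weak limit:
* almost surely, simultaneously for ALL real functions `g` of class `C^(1,α)` without critical
  points (on any set `U`, for any `α > 0`, which may depend on the point) and for ALL subsets `E` of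
  `boundaries f ∩ D ∩ U`: `dim g(E) ≤ dim E ≤ dim g(E) + 1/3`, for the Hausdorff and for the packing
  dimension.
* almost surely, ALL curves of class `C^(1,α)` with non-vanishing derivative meet `boundaries f ∩ D`
  in a set of Hausdorff and packing dimension at most `1/3`.
* for every set `S` which is regular with exponent `a` (`Reg`: quasi-Assouad dimension at most `a`,
  uniformly in space), almost surely, simultaneously for ALL maps `φ` of the plane of class
  `C^(1,α)` with invertible derivative, `boundaries f ∩ φ(S) ∩ D` has Hausdorff and packing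
  dimension at most `max (a - 2/3) 0`.
* for two independent limits `f`, `f'` (in two rectangles, along two sequences of meshes), almost
  surely, for ALL maps `φ` of class `C^(1,α)` with invertible derivative, the intersections inside
  the rectangles of `boundaries f` with `φ(f')` have dimension at most `13/12`, those with
  `φ(boundaries f')` at most `2/3`, those with `φ(doublePoints f')` at most `1/12`; and the
  intersections of `doublePoints f` with `φ(boundaries f')` have dimension at most `1/12`.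

Definitions: `HolderC1` in `Pool.Agent.N892.MA.Cal`, `Reg` in `Pool.Agent.N892.AC.Aff`, `IsLimit` in
`Pool.Agent.N892.AC.Ae`, `packDim` (with `upperBoxDim`, `CovBy`) in `Pool.Agent.N892.UP.Defs`,
`doublePoints` and `Images` in `MP_6c8efb_pr.DoublePointsSmoothMaps`; for the exploration path,
`Pool.Agent.H984R4.NP.Model` (`Rect`, `pos`, `clamp`, `pl`, `X`, `Rect.D`, `Rect.dm`, `Rect.curve`,
`Rect.time`, `Rect.law`), `Pool.Agent.H984R4.NP.Defs` (`Dm`, `Dm.edges`, `Dm.wir`, `Dm.cfg`,
`Dm.walk`, `Dm.len`) and `Pool.Agent.H984R3.Per.Defs` (states, `ae`, `mv`, `rt`, `nxt`, `orb`).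

Used from the starting files: the sharp three-arm bound, and the deterministic part (a point of the
path which is accessible from far away implies three arms).
-/

set_option autoImplicit false

namespace Pool.Agent.Results.MP_216314_pr.FrontierSmoothMaps

open H984N MeasureTheory Filter Topology Set
open Pool.Agent.N892.MA
open Pool.Agent.N892.AC (Reg IsLimit)
open Pool.Agent.N892.UP (packDim)
open Pool.Agent.TH990.FU (Acc frontiers_acc)
open Pool.Agent.Results.MP_6c8efb_pr.DoublePointsSmoothMaps (doublePoints Images images_of dbl_ae dep_cover)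
open scoped ENNReal NNReal

/-- The union of the boundaries of all the components of the complement of the trace of `f`. -/
def boundaries (f : C(unitInterval, ℂ)) : Set ℂ :=
  ⋃ x : ℂ, frontier (connectedComponentIn (Set.range f)ᶜ x)

/-- All functions of class `C^(1,α)` without critical points decrease the Hausdorff and the packing
dimensions of all subsets of `P ∩ D` (in the domain `U` of the function) by at most `b`. -/
def Almost (P D : Set ℂ) (b : ℝ≥0∞) : Prop :=
  ∀ (U : Set ℂ) (g : ℂ → ℝ), HolderC1 g U → (∀ x ∈ U, fderiv ℝ g x ≠ 0) →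
    ∀ E ⊆ P ∩ D ∩ U,
      (dimH (g '' E) ≤ dimH E ∧ dimH E ≤ dimH (g '' E) + b) ∧
      (packDim (g '' E) ≤ packDim E ∧ packDim E ≤ packDim (g '' E) + b)

/-- All curves of class `C^(1,α)` with non-vanishing derivative meet `P ∩ D` in a set of Hausdorff
and packing dimension at most `b`. -/
def Curves (P D : Set ℂ) (b : ℝ≥0∞) : Prop :=
  ∀ (J : Set ℝ) (γ : ℝ → ℂ), HolderC1 γ J → (∀ t ∈ J, deriv γ t ≠ 0) →
    dimH (P ∩ D ∩ γ '' J) ≤ b ∧ packDim (P ∩ D ∩ γ '' J) ≤ b

theorem third : ENNReal.ofReal (1/3) = 1/3 := by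
  rw [ENNReal.ofReal_div_of_pos (by norm_num)]; norm_num

theorem almost_of {P T D : Set ℂ} (h : FunBd T D (1/3)) (hP : P ⊆ T) : Almost P D (1/3) := by
  intro U g hg hreg E hE
  have := h U g hg hreg E fun z hz => ⟨⟨hP (hE hz).1.1, (hE hz).2⟩, (hE hz).1.2⟩
  rwa [third] at this

theorem curves_of {P T D : Set ℂ} (h : CopBd T D (Pool.Agent.N892.AC.ln 1 0) (1/3)) (hP : P ⊆ T) :
    Curves P D (1/3) := by
  intro J γ hγ hreg
  have := crvBd_of (h.mono hP (Subset.refl _)) J γ hγ hreg
  rwa [third] at this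

/-- The boundary points are accessible. -/
theorem acc_ae {R : Rect} {δ : ℕ → ℝ} (hδ : ∀ i, 0 < δ i) (hlim : Tendsto δ atTop (𝓝 0))
    {μ : ProbabilityMeasure X} (hμ : Tendsto (fun i => R.law (δ i)) atTop (𝓝 μ)) :
    ∀ᵐ p ∂(μ : Measure X), boundaries p.1 ⊆ ⋃ n : ℕ, Acc (1 / ((n:ℝ) + 1)) p.1 := by
  filter_upwards [(MP_fe58d8_pr.NaturalCurve.result R).2.2.2 δ hδ hlim μ hμ] with p hq
  obtain ⟨-, -, -, -, hdim, -⟩ := hq
  refine frontiers_acc ?_
  by_contra hcon
  push Not at hcon
  have h1 := hdim 0 1 zero_lt_one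
  have h2 : p.1 '' Icc 0 1 ⊆ {p.1 0} := by
    rintro _ ⟨s, -, rfl⟩
    exact hcon s 0
  have h3 := dimH_mono h2
  rw [h1, dimH_singleton] at h3
  exact absurd h3 (by
    rw [not_le]
    exact ENNReal.div_pos (by norm_num) (by norm_num))

theorem result (R : Rect) :
    (∀ δ : ℕ → ℝ, (∀ i, 0 < δ i) → Tendsto δ atTop (𝓝 0) →
      ∃ φ : ℕ → ℕ, StrictMono φ ∧ ∃ μ : ProbabilityMeasure X,
        Tendsto (fun i => R.law (δ (φ i))) atTop (𝓝 μ)) ∧
    ∀ μ : ProbabilityMeasure X, IsLimit R μ →
      (∀ᵐ p ∂(μ : Measure X), Almost (boundaries p.1) R.D (1/3) ∧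
        Curves (boundaries p.1) R.D (1/3)) ∧
      (∀ (S : Set ℂ) (a : ℝ), 0 < a → a ≤ 2 → Reg S a →
        ∀ᵐ p ∂(μ : Measure X), Images (boundaries p.1) R.D S (max (a - 2/3) 0)) ∧
      (∀ (R' : Rect) (μ' : ProbabilityMeasure X), IsLimit R' μ' →
        ∀ᵐ q ∂(μ' : Measure X), ∀ᵐ p ∂(μ : Measure X),
          Images (boundaries p.1) R.D (range q.1) (13/12) ∧
          Images (boundaries p.1) R.D (boundaries q.1 ∩ R'.D) (2/3) ∧
          Images (boundaries p.1) R.D (doublePoints q.1 ∩ R'.D) (1/12) ∧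
          Images (doublePoints p.1) R.D (boundaries q.1 ∩ R'.D) (1/12)) := by
  obtain ⟨h1, h2⟩ := MP_b3e76a_pr.AllAffineCopies.result R
  have hU := Pool.Agent.W424.KI.u3
  refine ⟨h1, fun μ hμ' => ?_⟩
  have hmu := hμ'
  obtain ⟨δ, hδ, hlim, hμ⟩ := hμ'
  obtain ⟨a1, a2, a3⟩ := all3 R hδ hlim hμ hU
  have hcop : ∀ (S : Set ℂ) (a : ℝ), 0 < a → a ≤ 2 → Reg S a →
      ∀ᵐ p ∂(μ : Measure X), Images (boundaries p.1) R.D S (max (a - 2/3) 0) := by
    intro S a ha ha2 hS
    filter_upwards [a2 S a ha ha2 hS, acc_ae hδ hlim hμ] with p hp hd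
    exact images_of hp hd
  have hcop4 := (Pool.Agent.Results.MP_6c8efb_pr.DoublePointsSmoothMaps.result R).2 μ hmu
  refine ⟨?_, hcop, ?_⟩
  · have hax := a2 (Pool.Agent.N892.AC.ln 1 0) 1 one_pos (by norm_num) Pool.Agent.N892.AC.axis_reg
    have e0 : max ((1:ℝ) - 2/3) 0 = 1/3 := by norm_num
    rw [e0] at hax
    filter_upwards [a1, hax, acc_ae hδ hlim hμ] with p hp hx hd
    exact ⟨almost_of hp hd, curves_of hx hd⟩
  · rintro R' μ' hμ'
    have hq := (h2 μ hmu).2.1 R' μ' hμ'
    obtain ⟨δ', hδ', hlim', hμ''⟩ := hμ'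
    obtain ⟨-, -, b4⟩ := all4 R' hδ' hlim' hμ''
    obtain ⟨-, -, b3⟩ := all3 R' hδ' hlim' hμ'' hU
    filter_upwards [hq, b4, b3, dbl_ae hδ' hlim' hμ'', acc_ae hδ' hlim' hμ''] with q q1 q4 q3 qd qa
    have e1 : max ((7:ℝ) / 4 - 2/3) 0 = 13/12 := by norm_num
    have e2 : max ((4:ℝ) / 3 - 2/3) 0 = 2/3 := by norm_num
    have e3 : max ((3:ℝ) / 4 - 2/3) 0 = 1/12 := by norm_num
    have e4 : max ((4:ℝ) / 3 - 5/4) 0 = 1/12 := by norm_num
    have c1 := hcop (range q.1) (7/4) (by norm_num) (by norm_num) q1.1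
    rw [e1] at c1
    have c2 : ∀ᵐ p ∂(μ : Measure X), ∀ n k : ℕ, Images (boundaries p.1) R.D
        (Acc (1 / ((n:ℝ) + 1)) q.1 ∩ DepD R'.D (1 / ((k:ℝ) + 1))) (2/3) := by
      rw [ae_all_iff]; intro n
      rw [ae_all_iff]; intro k
      have := hcop _ (4/3) (by norm_num) (by norm_num) (q3 n k)
      rwa [e2] at this
    have c3 : ∀ᵐ p ∂(μ : Measure X), ∀ n k : ℕ, Images (boundaries p.1) R.D
        (W92.DP.DPt (1 / ((n:ℝ) + 1)) q.1 ∩ DepD R'.D (1 / ((k:ℝ) + 1))) (1/12) := by
      rw [ae_all_iff]; intro n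
      rw [ae_all_iff]; intro k
      have := hcop _ (3/4) (by norm_num) (by norm_num) (q4 n k)
      rwa [e3] at this
    have c4 : ∀ᵐ p ∂(μ : Measure X), ∀ n k : ℕ, Images (doublePoints p.1) R.D
        (Acc (1 / ((n:ℝ) + 1)) q.1 ∩ DepD R'.D (1 / ((k:ℝ) + 1))) (1/12) := by
      rw [ae_all_iff]; intro n
      rw [ae_all_iff]; intro k
      have := hcop4.2.1 _ (4/3) (by norm_num) (by norm_num) (q3 n k)
      rwa [e4] at this
    have key : ∀ (P : Set ℂ) (b : ℝ) (T : ℕ → Set ℂ) (Q : Set ℂ), (Q ⊆ ⋃ n, T n) →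
        (∀ n k : ℕ, Images P R.D (T n ∩ DepD R'.D (1 / ((k:ℝ) + 1))) b) →
        Images P R.D (Q ∩ R'.D) b := by
      intro P b T Q hQ h
      have h3 : CopBd P R.D (⋃ n : ℕ, ⋃ k : ℕ, T n ∩ DepD R'.D (1 / ((k:ℝ) + 1))) b :=
        CopBd.iUnion' fun n => CopBd.iUnion' fun k => h n k
      refine h3.mono (Subset.refl _) ?_
      rintro z ⟨hz, hzD⟩
      obtain ⟨n, hn⟩ := mem_iUnion.1 (hQ hz)
      obtain ⟨k, hk⟩ := mem_iUnion.1 (dep_cover (Pool.Agent.TH990.FU.D_open R') hzD)
      exact mem_iUnion.2 ⟨n, mem_iUnion.2 ⟨k, hn, hk⟩⟩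
    filter_upwards [c1, c2, c3, c4] with p p1 p2 p3 p4
    exact ⟨p1, key _ _ _ _ qa p2, key _ _ _ _ qd p3, key _ _ _ _ qa p4⟩

end Pool.Agent.Results.MP_216314_pr.FrontierSmoothMaps
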