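import Pool.Agent.N948.IX.HT
import Pool.Agent.N948.IX.HL
import Pool.Agent.N948.IX.Fin2

/-!
# Exploration paths of critical bond percolation in independent half-planes

`m` independent configurations of critical bond percolation on `ℤ²`, restricted to the half-plane
`{(x, y) : y ≤ x}` with free boundary. The exploration path number `i < K` starts at the boundary vertex
`(i, i)`, in the configuration `j i`: it has open edges on its right, closed dual edges on its left. A
state is a vertex (on the right) together with a corner face of this vertex (on the left), `ae` is the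
edge which is examined; if it is open (and in the half-plane) the vertex moves along it, otherwise the
face moves across it. The event `Avoid R`: all `K` exploration paths reach distance `R`, and no edge of
the half-plane is examined by two of them.

Theorem, for `K ≥ 2`: the probability of this event does not depend on the choice of the
configurations (independent ones or all the same), and it is of exact order `R ^ (-K (2K - 1) / 3)`.
These are the half-plane intersection exponents `K (2K - 1) / 3` of SLE(6): `2, 5, 28/3, ...`.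

Definitions: `St`, `face`, `ae`, `mv`, `rt`, `nxt`, `orb`, `Exm` of `Pool.Agent.H984R3.Per.Defs`, `opn` of
`Pool.Agent.H974R2.Infinite`, `Z2`, `crit` of `Pool.Agent.H160R2.ML.T_FIN`.

Project IX (`Pool.Agent.N948.IX`); leaves `HT` (topology), `HL` (law and assembly, helper814), `C2`
(path sums, helper645). Used from the library: the odd boundary arm exponents
(`Pool.Agent.W808.HU`).
-/

set_option autoImplicit false

namespace Pool.Agent.Results.MP_216314_pr.HalfPlaneIntersections

open H974 H984P MeasureTheory
open Pool.Agent.H160R2.ML.TFIN (Z2 crit)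

/-- The edges of the half-plane `{(x, y) : y ≤ x}`. -/
def Half : Set Edg := {e | (src e).2 ≤ (src e).1 ∧ (tgt e).2 ≤ (tgt e).1}

/-- The starting state: boundary vertex `(i, i)` on the right, face with lower left corner `(i, i)` on
the left. -/
def start (i : ℕ) : St := (((i : ℤ), (i : ℤ)), Q4.ne)

/-- The exploration of `F` started at `σ` reaches distance `R` for the first time at time `T`. -/
def Reaches (F : Set Edg) (R : ℕ) (σ : St) (T : ℕ) : Prop :=
  max |(orb F σ T).1.1| |(orb F σ T).1.2| = (R : ℤ) ∧
    ∀ s < T, max |(orb F σ s).1.1| |(orb F σ s).1.2| < (R : ℤ)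

/-- The `K` exploration paths, number `i` in the configuration `F i`, reach distance `R`, and no edge
of the half-plane is examined by two of them. -/
def Avoid {K : ℕ} (R : ℕ) (F : Fin K → Set Edg) : Prop :=
  ∃ T : Fin K → ℕ, (∀ i, Reaches (F i ∩ Half) R (start i) (T i)) ∧
    ∀ i i', i ≠ i' → ∀ e ∈ Half, e ∈ Exm (F i ∩ Half) (start i) (T i) →
      e ∉ Exm (F i' ∩ Half) (start i') (T i')

/-- The law of `m` independent critical configurations. -/
noncomputable def law (m : ℕ) : Measure (Fin m → Z2.edgeSet → Bool) :=
  Measure.pi (fun _ => crit)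

theorem half_eq : Half = Pool.Agent.W808.HU.Hs := by
  ext ⟨x, y, b⟩
  cases b <;> simp [Half, Pool.Agent.W808.HU.Hs, H906.Cyl.dco, src, tgt] <;> omega

theorem avoid_iff {K : ℕ} (R : ℕ) (F : Fin K → Set Edg) :
    Avoid R F ↔ Pool.Agent.N948.IX.Exp R F := by
  unfold Avoid Pool.Agent.N948.IX.Exp Reaches Pool.Agent.N948.IX.Hit
    Pool.Agent.H160R2.ML.nm start Pool.Agent.N948.IX.s0
  rw [half_eq]

theorem result (K : ℕ) (hK : 2 ≤ K) :
    (∀ (m m' : ℕ) (j : Fin K → Fin m) (j' : Fin K → Fin m') (R : ℕ), K < R →
      (law m).real {ω | Avoid R (fun i => opn (ω (j i)))} =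
        (law m').real {ω | Avoid R (fun i => opn (ω (j' i)))}) ∧
    ∃ c C : ℝ, 0 < c ∧ 0 < C ∧ ∀ (m : ℕ) (j : Fin K → Fin m) (R : ℕ), K < R →
      c * (R : ℝ) ^ (-((K : ℝ) * (2 * K - 1) / 3)) ≤
        (law m).real {ω | Avoid R (fun i => opn (ω (j i)))} ∧
      (law m).real {ω | Avoid R (fun i => opn (ω (j i)))} ≤
        C * (R : ℝ) ^ (-((K : ℝ) * (2 * K - 1) / 3)) := by
  have h3 := Pool.Agent.N948.IX.hp3 Pool.Agent.N948.IX.gps Pool.Agent.N948.IX.law
  have h := Pool.Agent.N948.IX.hp Pool.Agent.N948.IX.hp1 Pool.Agent.N948.IX.hp2 h3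
  have e : ∀ (m : ℕ) (j : Fin K → Fin m) (R : ℕ),
      {ω : Fin m → Z2.edgeSet → Bool | Avoid R (fun i => opn (ω (j i)))} =
      {ω | Pool.Agent.N948.IX.Exp R (fun i => opn (ω (j i)))} := by
    intro m j R
    ext ω
    exact avoid_iff R _
  refine ⟨fun m m' j j' R hR => ?_, ?_⟩
  · rw [e, e]
    exact (h3 m K j R hR).trans (h3 m' K j' R hR).symm
  · obtain ⟨c, C, hc, hC, hb⟩ := h K hK
    refine ⟨c, C, hc, hC, fun m j R hR => ?_⟩
    rw [e]
    exact hb m j R hR

end Pool.Agent.Results.MP_216314_pr.HalfPlaneIntersections
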